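import Mathlib

/-! Poonen's strengthening of the union-closed sets conjecture for families with small steps. -/

set_option autoImplicit false

namespace Pool.Agent.UCSmallSteps

open Finset

variable {α : Type*} [DecidableEq α]

/-- the sign of `x` in `A` -/
def chi (x : α) (A : Finset α) : ℤ := if x ∈ A then 1 else -1

/-- tight weighted families on `U` -/
structure Tight (U : Finset α) (w : Finset α → ℕ) : Prop where
  mono : ∀ A, A ⊆ U → ∀ B, B ⊆ U → w B ≠ 0 → w A ≤ w (A ∪ B)
  ne : ∃ A, A ⊆ U ∧ w A ≠ 0
  exc : ∀ x ∈ U, ∑ A ∈ U.powerset, chi x A * (w A : ℤ) ≤ 0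
  sep : ∀ x ∈ U, ∀ y ∈ U, x ≠ y → ∃ A, A ⊆ U ∧ w A ≠ 0 ∧ ((x ∈ A ∧ y ∉ A) ∨ (y ∈ A ∧ x ∉ A))
  cov : ∀ x ∈ U, ∃ A, A ⊆ U ∧ w A ≠ 0 ∧ x ∈ A

theorem chi_self (x : α) (A : Finset α) : chi x (insert x A) = 1 := by
  simp [chi]

theorem chi_not {x : α} {A : Finset α} (h : x ∉ A) : chi x A = -1 := by
  simp [chi, h]

theorem chi_ne {x z : α} (h : z ≠ x) (A : Finset α) : chi z (insert x A) = chi z A := by
  simp [chi, h]

/-- one element -/
theorem single {U' : Finset α} {x : α} (hx : x ∉ U') {w : Finset α → ℕ}
    (h : Tight (insert x U') w) (hw : w {x} ≠ 0) : ∀ C, C ⊆ U' → w (insert x C) = w C := by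
  have h1 := h.exc x (mem_insert_self x U')
  rw [sum_powerset_insert hx] at h1
  have h2 : ∑ C ∈ U'.powerset, chi x C * (w C : ℤ) = ∑ C ∈ U'.powerset, -(w C : ℤ) := by
    apply sum_congr rfl
    intro C hC
    rw [chi_not (fun hh => hx (mem_powerset.1 hC hh))]
    ring
  have h3 : ∑ C ∈ U'.powerset, chi x (insert x C) * (w (insert x C) : ℤ)
      = ∑ C ∈ U'.powerset, (w (insert x C) : ℤ) := by
    apply sum_congr rfl
    intro C _
    rw [chi_self, one_mul]
  rw [h2, h3, ← sum_add_distrib] at h1
  have h4 : ∀ C ∈ U'.powerset, 0 ≤ -(w C : ℤ) + (w (insert x C) : ℤ) := by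
    intro C hC
    have := h.mono C ((mem_powerset.1 hC).trans (subset_insert _ _)) {x}
      (singleton_subset_iff.2 (mem_insert_self _ _)) hw
    rw [union_comm, ← insert_eq] at this
    omega
  have h5 : ∑ C ∈ U'.powerset, (-(w C : ℤ) + (w (insert x C) : ℤ)) = 0 :=
    le_antisymm h1 (sum_nonneg h4)
  have h6 := (sum_eq_zero_iff_of_nonneg h4).1 h5
  intro C hC
  have := h6 C (mem_powerset.2 hC)
  omega

theorem single_tight {U' : Finset α} {x : α} (hx : x ∉ U') {w : Finset α → ℕ}
    (h : Tight (insert x U') w) (hw : w {x} ≠ 0) : Tight U' w := by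
  have hs := single hx h hw
  have hsub : U' ⊆ insert x U' := subset_insert _ _
  have her : ∀ A, A ⊆ insert x U' → w A ≠ 0 → A.erase x ⊆ U' ∧ w (A.erase x) ≠ 0 := by
    intro A hA hA0
    have h1 : A.erase x ⊆ U' := subset_insert_iff.1 hA
    refine ⟨h1, ?_⟩
    by_cases hxA : x ∈ A
    · rw [← hs _ h1, insert_erase hxA]
      exact hA0
    · rw [erase_eq_of_notMem hxA]
      exact hA0
  refine ⟨?_, ?_, ?_, ?_, ?_⟩
  · intro A hA B hB
    exact h.mono A (hA.trans hsub) B (hB.trans hsub)
  · obtain ⟨A, hA, hA0⟩ := h.ne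
    exact ⟨A.erase x, her A hA hA0⟩
  · intro z hz
    have hzx : z ≠ x := fun e => hx (e ▸ hz)
    have h1 := h.exc z (hsub hz)
    rw [sum_powerset_insert hx] at h1
    have h2 : ∑ C ∈ U'.powerset, chi z (insert x C) * (w (insert x C) : ℤ)
        = ∑ C ∈ U'.powerset, chi z C * (w C : ℤ) := by
      apply sum_congr rfl
      intro C hC
      rw [chi_ne hzx, hs C (mem_powerset.1 hC)]
    rw [h2] at h1
    omega
  · intro z hz z' hz' hne
    have hzx : z ≠ x := fun e => hx (e ▸ hz)
    have hzx' : z' ≠ x := fun e => hx (e ▸ hz')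
    obtain ⟨A, hA, hA0, hA1⟩ := h.sep z (hsub hz) z' (hsub hz') hne
    refine ⟨A.erase x, (her A hA hA0).1, (her A hA hA0).2, ?_⟩
    simp only [mem_erase, ne_eq, hzx, hzx', not_false_eq_true, true_and]
    exact hA1
  · intro z hz
    have hzx : z ≠ x := fun e => hx (e ▸ hz)
    obtain ⟨A, hA, hA0, hA1⟩ := h.cov z (hsub hz)
    exact ⟨A.erase x, (her A hA hA0).1, (her A hA hA0).2, mem_erase.2 ⟨hzx, hA1⟩⟩

/-! ### two elements -/

/-- the fibre sums for a pair -/
def two (x y : α) (w : Finset α → ℕ) (C : Finset α) : ℕ :=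
  w C + w (insert y C) + w (insert x C) + w (insert x (insert y C))

theorem sum_two {U' : Finset α} {x y : α} (hx : x ∉ insert y U') (hy : y ∉ U')
    (f : Finset α → ℤ) :
    ∑ A ∈ (insert x (insert y U')).powerset, f A = ∑ C ∈ U'.powerset,
      (f C + f (insert y C) + f (insert x C) + f (insert x (insert y C))) := by
  rw [sum_powerset_insert hx, sum_powerset_insert hy, sum_powerset_insert hy,
    sum_add_distrib, sum_add_distrib, sum_add_distrib]
  ring

theorem pair {U' : Finset α} {x y : α} (hx : x ∉ insert y U') (hy : y ∉ U') {w : Finset α → ℕ}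
    (h : Tight (insert x (insert y U')) w) (hw : w {x, y} ≠ 0) :
    ∀ C, C ⊆ U' → w (insert x (insert y C)) = w C := by
  have hxy : x ≠ y := fun e => hx (e ▸ mem_insert_self _ _)
  have hxU : x ∉ U' := fun e => hx (mem_insert_of_mem e)
  have hsub : U' ⊆ insert x (insert y U') :=
    (subset_insert _ _).trans (subset_insert _ _)
  have h1 := h.exc x (mem_insert_self _ _)
  have h2 := h.exc y (mem_insert_of_mem (mem_insert_self _ _))
  rw [sum_two hx hy] at h1 h2
  have h3 := add_le_add h1 h2
  rw [← sum_add_distrib, add_zero] at h3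
  have h4 : ∀ C ∈ U'.powerset, (chi x C * (w C : ℤ) + chi x (insert y C) * (w (insert y C) : ℤ)
      + chi x (insert x C) * (w (insert x C) : ℤ)
      + chi x (insert x (insert y C)) * (w (insert x (insert y C)) : ℤ))
      + (chi y C * (w C : ℤ) + chi y (insert y C) * (w (insert y C) : ℤ)
      + chi y (insert x C) * (w (insert x C) : ℤ)
      + chi y (insert x (insert y C)) * (w (insert x (insert y C)) : ℤ))
      = 2 * ((w (insert x (insert y C)) : ℤ) - (w C : ℤ)) := by
    intro C hC
    have hxC : x ∉ C := fun e => hxU (mem_powerset.1 hC e)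
    have hyC : y ∉ C := fun e => hy (mem_powerset.1 hC e)
    rw [chi_self, chi_self, chi_self, chi_ne hxy, chi_ne hxy.symm, chi_ne hxy.symm, chi_self,
      chi_not hxC, chi_not hyC]
    ring
  rw [sum_congr rfl h4] at h3
  have h5 : ∀ C ∈ U'.powerset, 0 ≤ 2 * ((w (insert x (insert y C)) : ℤ) - (w C : ℤ)) := by
    intro C hC
    have := h.mono C ((mem_powerset.1 hC).trans hsub) {x, y} (by
      intro z hz
      rw [mem_insert, mem_singleton] at hz
      rcases hz with rfl | rfl
      · exact mem_insert_self _ _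
      · exact mem_insert_of_mem (mem_insert_self _ _)) hw
    have he : C ∪ {x, y} = insert x (insert y C) := by
      ext z
      simp only [mem_union, mem_insert, mem_singleton]
      tauto
    rw [he] at this
    omega
  have h6 := (sum_eq_zero_iff_of_nonneg h5).1 (le_antisymm h3 (sum_nonneg h5))
  intro C hC
  have := h6 C (mem_powerset.2 hC)
  omega

theorem pair_zero {U' : Finset α} {x y : α} (hx : x ∉ insert y U') (hy : y ∉ U')
    {w : Finset α → ℕ}
    (h : Tight (insert x (insert y U')) w) (hw : w {x, y} ≠ 0) (C : Finset α) (hC : C ⊆ U')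
    (h0 : two x y w C ≠ 0) : w C ≠ 0 := by
  intro h1
  apply h0
  have hp := pair hx hy h hw C hC
  have hC2 : C ⊆ insert x (insert y U') :=
    hC.trans ((subset_insert _ _).trans (subset_insert _ _))
  have hxy : ({x, y} : Finset α) ⊆ insert x (insert y U') := by
    intro z hz
    rw [mem_insert, mem_singleton] at hz
    rcases hz with rfl | rfl
    · exact mem_insert_self _ _
    · exact mem_insert_of_mem (mem_insert_self _ _)
  have e1 : insert y C ∪ {x, y} = insert x (insert y C) := by
    ext z
    simp only [mem_union, mem_insert, mem_singleton]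
    tauto
  have e2 : insert x C ∪ {x, y} = insert x (insert y C) := by
    ext z
    simp only [mem_union, mem_insert, mem_singleton]
    tauto
  have h2 := h.mono (insert y C) (by
    rw [← union_empty (insert y C)]
    intro z hz
    rw [union_empty, mem_insert] at hz
    rcases hz with rfl | hz
    · exact mem_insert_of_mem (mem_insert_self _ _)
    · exact hC2 hz) {x, y} hxy hw
  have h3 := h.mono (insert x C) (by
    intro z hz
    rw [mem_insert] at hz
    rcases hz with rfl | hz
    · exact mem_insert_self _ _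
    · exact hC2 hz) {x, y} hxy hw
  rw [e1] at h2
  rw [e2] at h3
  unfold two
  omega

theorem er_sub {U' : Finset α} {x y : α} {A : Finset α} (hA : A ⊆ insert x (insert y U')) :
    (A.erase x).erase y ⊆ U' :=
  subset_insert_iff.1 (subset_insert_iff.1 hA)

theorem le_two {x y : α} (hxy : x ≠ y) (w : Finset α → ℕ) (A : Finset α) :
    w A ≤ two x y w ((A.erase x).erase y) := by
  unfold two
  by_cases h1 : x ∈ A
  · by_cases h2 : y ∈ A
    · have e1 : insert x (insert y ((A.erase x).erase y)) = A := by
        rw [insert_erase (mem_erase.2 ⟨hxy.symm, h2⟩), insert_erase h1]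
      rw [e1]
      omega
    · have e1 : (A.erase x).erase y = A.erase x :=
        erase_eq_of_notMem (fun hh => h2 (mem_of_mem_erase hh))
      have e2 : insert x ((A.erase x).erase y) = A := by
        rw [e1, insert_erase h1]
      rw [e2]
      omega
  · have e0 : A.erase x = A := erase_eq_of_notMem h1
    rw [e0]
    by_cases h2 : y ∈ A
    · have e1 : insert y (A.erase y) = A := insert_erase h2
      rw [e1]
      omega
    · have e1 : A.erase y = A := erase_eq_of_notMem h2
      rw [e1]
      omega

theorem pair_tight {U' : Finset α} {x y : α} (hx : x ∉ insert y U') (hy : y ∉ U')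
    {w : Finset α → ℕ}
    (h : Tight (insert x (insert y U')) w) (hw : w {x, y} ≠ 0) : Tight U' (two x y w) := by
  have hxy : x ≠ y := fun e => hx (e ▸ mem_insert_self _ _)
  have hxU : x ∉ U' := fun e => hx (mem_insert_of_mem e)
  have hsub : U' ⊆ insert x (insert y U') :=
    (subset_insert _ _).trans (subset_insert _ _)
  refine ⟨?_, ?_, ?_, ?_, ?_⟩
  · intro A hA B hB hB0
    have hB1 := pair_zero hx hy h hw B hB hB0
    have m := fun D hD => h.mono D hD B (hB.trans hsub) hB1
    have m1 := m A (hA.trans hsub)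
    have m2 := m (insert y A) (by
      intro z hz
      rw [mem_insert] at hz
      rcases hz with rfl | hz
      · exact mem_insert_of_mem (mem_insert_self _ _)
      · exact hsub (hA hz))
    have m3 := m (insert x A) (by
      intro z hz
      rw [mem_insert] at hz
      rcases hz with rfl | hz
      · exact mem_insert_self _ _
      · exact hsub (hA hz))
    have m4 := m (insert x (insert y A)) (by
      intro z hz
      rw [mem_insert, mem_insert] at hz
      rcases hz with rfl | rfl | hz
      · exact mem_insert_self _ _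
      · exact mem_insert_of_mem (mem_insert_self _ _)
      · exact hsub (hA hz))
    rw [insert_union] at m2 m3 m4
    rw [insert_union] at m4
    unfold two
    omega
  · obtain ⟨A, hA, hA0⟩ := h.ne
    refine ⟨(A.erase x).erase y, er_sub hA, ?_⟩
    have := le_two hxy w A
    omega
  · intro z hz
    have hzx : z ≠ x := fun e => hxU (e ▸ hz)
    have hzy : z ≠ y := fun e => hy (e ▸ hz)
    have h1 := h.exc z (hsub hz)
    rw [sum_two hx hy] at h1
    have h2 : ∀ C ∈ U'.powerset, (chi z C * (w C : ℤ) + chi z (insert y C) * (w (insert y C) : ℤ)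
      + chi z (insert x C) * (w (insert x C) : ℤ)
      + chi z (insert x (insert y C)) * (w (insert x (insert y C)) : ℤ))
      = chi z C * (two x y w C : ℤ) := by
      intro C _
      rw [chi_ne hzx, chi_ne hzx, chi_ne hzy]
      unfold two
      push_cast
      ring
    rw [sum_congr rfl h2] at h1
    exact h1
  · intro z hz z' hz' hne
    have hzx : z ≠ x := fun e => hxU (e ▸ hz)
    have hzy : z ≠ y := fun e => hy (e ▸ hz)
    have hzx' : z' ≠ x := fun e => hxU (e ▸ hz')
    have hzy' : z' ≠ y := fun e => hy (e ▸ hz')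
    obtain ⟨A, hA, hA0, hA1⟩ := h.sep z (hsub hz) z' (hsub hz') hne
    refine ⟨(A.erase x).erase y, er_sub hA, ?_, ?_⟩
    · have := le_two hxy w A
      omega
    · simp only [mem_erase, ne_eq, hzx, hzx', hzy, hzy', not_false_eq_true, true_and]
      exact hA1
  · intro z hz
    have hzx : z ≠ x := fun e => hxU (e ▸ hz)
    have hzy : z ≠ y := fun e => hy (e ▸ hz)
    obtain ⟨A, hA, hA0, hA1⟩ := h.cov z (hsub hz)
    refine ⟨(A.erase x).erase y, er_sub hA, ?_, mem_erase.2 ⟨hzy, mem_erase.2 ⟨hzx, hA1⟩⟩⟩
    have := le_two hxy w A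
    omega

/-! ### assembling -/

theorem asm_single {U' : Finset α} {x : α} (hx : x ∉ U') {w : Finset α → ℕ}
    (h : Tight (insert x U') w) (hw : w {x} ≠ 0)
    (ih : ∀ C, C ⊆ U' → w C = w ∅) : ∀ A, A ⊆ insert x U' → w A = w ∅ := by
  intro A hA
  have h1 : A.erase x ⊆ U' := subset_insert_iff.1 hA
  by_cases hxA : x ∈ A
  · have := single hx h hw _ h1
    rw [insert_erase hxA] at this
    rw [this, ih _ h1]
  · rw [erase_eq_of_notMem hxA] at h1
    exact ih A h1

theorem asm_pair {U' : Finset α} {x y : α} (hx : x ∉ insert y U') (hy : y ∉ U')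
    {w : Finset α → ℕ}
    (h : Tight (insert x (insert y U')) w) (hw : w {x, y} ≠ 0)
    (ih : ∀ C, C ⊆ U' → two x y w C = two x y w ∅) :
    ∀ A, A ⊆ insert x (insert y U') → w A = w ∅ := by
  have hxy : x ≠ y := fun e => hx (e ▸ mem_insert_self _ _)
  have hxU : x ∉ U' := fun e => hx (mem_insert_of_mem e)
  have hsub : U' ⊆ insert x (insert y U') :=
    (subset_insert _ _).trans (subset_insert _ _)
  have hxs : ∀ C, C ⊆ U' → insert x C ⊆ insert x (insert y U') := by
    intro C hC z hz
    rw [mem_insert] at hz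
    rcases hz with rfl | hz
    · exact mem_insert_self _ _
    · exact hsub (hC hz)
  have hys : ∀ C, C ⊆ U' → insert y C ⊆ insert x (insert y U') := by
    intro C hC z hz
    rw [mem_insert] at hz
    rcases hz with rfl | hz
    · exact mem_insert_of_mem (mem_insert_self _ _)
    · exact hsub (hC hz)
  have ht := pair_tight hx hy h hw
  obtain ⟨A0, hA0, hA00⟩ := ht.ne
  have hk : ∀ C, C ⊆ U' → w C ≠ 0 := by
    intro C hC
    apply pair_zero hx hy h hw C hC
    rw [ih C hC, ← ih A0 hA0]
    exact hA00
  have hp := pair hx hy h hw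
  have hconst : ∀ C, C ⊆ U' → w C = w ∅ ∧ w (insert y C) = w {y} ∧ w (insert x C) = w {x} := by
    intro C hC
    have hC2 := hC.trans hsub
    have m1 := h.mono ∅ (empty_subset _) C hC2 (hk C hC)
    have m2 := h.mono {y} (hys ∅ (empty_subset _)) C hC2 (hk C hC)
    have m3 := h.mono {x} (hxs ∅ (empty_subset _)) C hC2 (hk C hC)
    rw [empty_union] at m1
    rw [← insert_eq] at m2 m3
    have h1 := ih C hC
    unfold two at h1
    rw [hp C hC, hp ∅ (empty_subset _)] at h1
    have ex : insert x (∅ : Finset α) = {x} := rfl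
    have ey : insert y (∅ : Finset α) = {y} := rfl
    rw [ex, ey] at h1
    omega
  have hpos : (0 : ℤ) < (U'.powerset.card : ℤ) := by
    have : 0 < U'.powerset.card := card_pos.2 ⟨∅, empty_mem_powerset _⟩
    exact_mod_cast this
  have hx1 := h.exc x (mem_insert_self _ _)
  have hy1 := h.exc y (mem_insert_of_mem (mem_insert_self _ _))
  rw [sum_two hx hy] at hx1 hy1
  have hx2 : ∀ C ∈ U'.powerset, (chi x C * (w C : ℤ) + chi x (insert y C) * (w (insert y C) : ℤ)
      + chi x (insert x C) * (w (insert x C) : ℤ)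
      + chi x (insert x (insert y C)) * (w (insert x (insert y C)) : ℤ))
      = (w {x} : ℤ) - (w {y} : ℤ) := by
    intro C hC
    have hC' := mem_powerset.1 hC
    have hxC : x ∉ C := fun e => hxU (hC' e)
    obtain ⟨c1, c2, c3⟩ := hconst C hC'
    rw [chi_self, chi_self, chi_ne hxy, chi_not hxC, hp C hC', c1, c2, c3]
    ring
  have hy2 : ∀ C ∈ U'.powerset, (chi y C * (w C : ℤ) + chi y (insert y C) * (w (insert y C) : ℤ)
      + chi y (insert x C) * (w (insert x C) : ℤ)
      + chi y (insert x (insert y C)) * (w (insert x (insert y C)) : ℤ))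
      = (w {y} : ℤ) - (w {x} : ℤ) := by
    intro C hC
    have hC' := mem_powerset.1 hC
    have hyC : y ∉ C := fun e => hy (hC' e)
    obtain ⟨c1, c2, c3⟩ := hconst C hC'
    rw [chi_ne hxy.symm, chi_ne hxy.symm, chi_self, chi_not hyC, hp C hC', c1, c2, c3]
    ring
  rw [sum_congr rfl hx2, sum_const, nsmul_eq_mul] at hx1
  rw [sum_congr rfl hy2, sum_const, nsmul_eq_mul] at hy1
  have hx3 : (w {x} : ℤ) - (w {y} : ℤ) ≤ 0 := by
    by_contra hcon
    push Not at hcon
    have := mul_pos hpos hcon
    omega
  have hy3 : (w {y} : ℤ) - (w {x} : ℤ) ≤ 0 := by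
    by_contra hcon
    push Not at hcon
    have := mul_pos hpos hcon
    omega
  have hxyw : w {x} = w {y} := by omega
  have hx0 : w {x} ≠ 0 := by
    obtain ⟨A, hA, hA0, hA1⟩ := h.sep x (mem_insert_self _ _) y
      (mem_insert_of_mem (mem_insert_self _ _)) hxy
    rcases hA1 with ⟨h1, h2⟩ | ⟨h1, h2⟩
    · have e1 : A.erase x ⊆ U' := by
        intro z hz
        have hz1 := mem_erase.1 hz
        have hz2 := hA hz1.2
        rw [mem_insert, mem_insert] at hz2
        rcases hz2 with rfl | rfl | hz2
        · exact absurd rfl hz1.1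
        · exact absurd hz1.2 h2
        · exact hz2
      have := (hconst _ e1).2.2
      rw [insert_erase h1] at this
      rw [← this]
      exact hA0
    · have e1 : A.erase y ⊆ U' := by
        intro z hz
        have hz1 := mem_erase.1 hz
        have hz2 := hA hz1.2
        rw [mem_insert, mem_insert] at hz2
        rcases hz2 with rfl | rfl | hz2
        · exact absurd hz1.2 h2
        · exact absurd rfl hz1.1
        · exact hz2
      have := (hconst _ e1).2.1
      rw [insert_erase h1] at this
      rw [hxyw, ← this]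
      exact hA0
  have hxe : w {x} = w ∅ := single hx h hx0 ∅ (empty_subset _)
  have hye : w {y} = w ∅ := by rw [← hxyw, hxe]
  intro A hA
  have hE := er_sub hA
  obtain ⟨c1, c2, c3⟩ := hconst _ hE
  by_cases h1 : x ∈ A
  · by_cases h2 : y ∈ A
    · have e1 : insert x (insert y ((A.erase x).erase y)) = A := by
        rw [insert_erase (mem_erase.2 ⟨hxy.symm, h2⟩), insert_erase h1]
      rw [← e1, hp _ hE, c1]
    · have e1 : (A.erase x).erase y = A.erase x :=
        erase_eq_of_notMem (fun hh => h2 (mem_of_mem_erase hh))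
      have e2 : insert x ((A.erase x).erase y) = A := by
        rw [e1, insert_erase h1]
      rw [← e2, c3, hxe]
  · have e0 : A.erase x = A := erase_eq_of_notMem h1
    rw [e0] at c1 c2 c3 hE
    by_cases h2 : y ∈ A
    · have e1 : insert y (A.erase y) = A := insert_erase h2
      rw [← e1, c2, hye]
    · have e1 : A.erase y = A := erase_eq_of_notMem h2
      rw [e1] at c1
      exact c1

/-! ### lists of steps -/

/-- every member of the list adds at most two elements -/
def Small : Finset α → List (Finset α) → Prop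
  | _, [] => True
  | B, A :: L => (A \ B).card ≤ 2 ∧ Small (B ∪ A) L

theorem small_quot (M : Finset α) (L : List (Finset α)) :
    ∀ B, Small (B ∪ M) L → Small B (L.map (fun A => A \ M)) := by
  induction L with
  | nil =>
    intro B _
    exact trivial
  | cons A L ih =>
    intro B hB
    refine ⟨?_, ?_⟩
    · have e : (A \ M) \ B = A \ (B ∪ M) := by
        rw [sdiff_sdiff_left, sup_eq_union, union_comm]
      show ((A \ M) \ B).card ≤ 2
      rw [e]
      exact hB.1
    · apply ih
      have e : B ∪ A \ M ∪ M = B ∪ M ∪ A := by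
        ext z
        simp only [mem_union, mem_sdiff]
        tauto
      rw [e]
      exact hB.2

theorem main (L : List (Finset α)) : ∀ (U : Finset α) (w : Finset α → ℕ), Tight U w →
    (∀ A ∈ L, A ⊆ U ∧ w A ≠ 0) → Small ∅ L →
    (∀ B, B ⊆ U → w B ≠ 0 → B ≠ ∅ → ∃ A ∈ L, (B ∩ A).Nonempty) →
    ∀ A, A ⊆ U → w A = w ∅ := by
  induction hn : L.length generalizing L with
  | zero =>
    intro U w h _ _ hm
    have hL : L = [] := List.length_eq_zero_iff.1 hn
    subst hL
    have hU : U = ∅ := by
      by_contra hU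
      obtain ⟨x, hx⟩ := nonempty_iff_ne_empty.2 hU
      obtain ⟨A, hA, hA0, hxA⟩ := h.cov x hx
      obtain ⟨B, hB, _⟩ := hm A hA hA0 (ne_empty_of_mem hxA)
      exact absurd hB List.not_mem_nil
    intro A hA
    rw [hU, subset_empty] at hA
    rw [hA]
  | succ n ih =>
    intro U w h hL hS hm
    obtain ⟨M, L', rfl⟩ : ∃ M L', L = M :: L' := by
      cases L with
      | nil => simp at hn
      | cons M L' => exact ⟨M, L', rfl⟩
    have hn' : L'.length = n := by
      simpa using hn
    have hMc : M.card ≤ 2 := by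
      have := hS.1
      rwa [sdiff_empty] at this
    have hS2 : Small (∅ ∪ M) L' := hS.2
    have hMU := (hL M List.mem_cons_self).1
    have hM0 := (hL M List.mem_cons_self).2
    have hc : M.card = 0 ∨ M.card = 1 ∨ M.card = 2 := by omega
    rcases hc with hc | hc | hc
    · rw [card_eq_zero] at hc
      subst hc
      apply ih L' hn' U w h (fun A hA => hL A (List.mem_cons_of_mem _ hA))
      · rw [empty_union] at hS2
        exact hS2
      · intro B hB hB0 hB1
        obtain ⟨A, hA, hA1⟩ := hm B hB hB0 hB1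
        rcases List.mem_cons.1 hA with rfl | hA
        · simp at hA1
        · exact ⟨A, hA, hA1⟩
    · rw [card_eq_one] at hc
      obtain ⟨x, rfl⟩ := hc
      have hxU : x ∈ U := hMU (mem_singleton_self x)
      obtain ⟨U', hU', hUe⟩ : ∃ U', x ∉ U' ∧ insert x U' = U :=
        ⟨U.erase x, notMem_erase _ _, insert_erase hxU⟩
      subst hUe
      apply asm_single hU' h hM0
      have ht := single_tight hU' h hM0
      have hs := single hU' h hM0
      have hsd : ∀ A, A ⊆ insert x U' → A \ {x} ⊆ U' := by
        intro A hA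
        rw [sdiff_singleton_eq_erase]
        exact subset_insert_iff.1 hA
      apply ih (L'.map (fun A => A \ {x})) (by simpa using hn') U' w ht
      · intro A hA
        obtain ⟨A', hA', rfl⟩ := List.mem_map.1 hA
        obtain ⟨h1, h2⟩ := hL A' (List.mem_cons_of_mem _ hA')
        refine ⟨hsd A' h1, ?_⟩
        have h3 := hsd A' h1
        by_cases hxA : x ∈ A'
        · rw [← hs _ h3, sdiff_singleton_eq_erase, insert_erase hxA]
          exact h2
        · rw [sdiff_singleton_eq_erase, erase_eq_of_notMem hxA]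
          exact h2
      · exact small_quot _ _ _ hS2
      · intro B hB hB0 hB1
        obtain ⟨A, hA, hA1⟩ := hm B (hB.trans (subset_insert _ _)) hB0 hB1
        have hxB : x ∉ B := fun e => hU' (hB e)
        rcases List.mem_cons.1 hA with rfl | hA
        · exfalso
          obtain ⟨z, hz⟩ := hA1
          rw [mem_inter, mem_singleton] at hz
          exact hxB (hz.2 ▸ hz.1)
        · refine ⟨A \ {x}, List.mem_map.2 ⟨A, hA, rfl⟩, ?_⟩
          obtain ⟨z, hz⟩ := hA1
          rw [mem_inter] at hz
          refine ⟨z, mem_inter.2 ⟨hz.1, mem_sdiff.2 ⟨hz.2, ?_⟩⟩⟩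
          rw [mem_singleton]
          rintro rfl
          exact hxB hz.1
    · rw [card_eq_two] at hc
      obtain ⟨x, y, hxy, rfl⟩ := hc
      have hxU : x ∈ U := hMU (mem_insert_self _ _)
      have hyU : y ∈ U := hMU (mem_insert_of_mem (mem_singleton_self y))
      obtain ⟨U', hx', hy', hUe⟩ : ∃ U', x ∉ insert y U' ∧ y ∉ U' ∧
          insert x (insert y U') = U := by
        refine ⟨(U.erase x).erase y, ?_, notMem_erase _ _, ?_⟩
        · rw [insert_erase (mem_erase.2 ⟨hxy.symm, hyU⟩)]
          exact notMem_erase _ _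
        · rw [insert_erase (mem_erase.2 ⟨hxy.symm, hyU⟩), insert_erase hxU]
      subst hUe
      apply asm_pair hx' hy' h hM0
      have ht := pair_tight hx' hy' h hM0
      have hsd : ∀ A : Finset α, A \ {x, y} = (A.erase x).erase y := by
        intro A
        ext z
        simp only [mem_sdiff, mem_insert, mem_singleton, mem_erase]
        tauto
      have hxU' : x ∉ U' := fun e => hx' (mem_insert_of_mem e)
      apply ih (L'.map (fun A => A \ {x, y})) (by simpa using hn') U' _ ht
      · intro A hA
        obtain ⟨A', hA', rfl⟩ := List.mem_map.1 hA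
        obtain ⟨h1, h2⟩ := hL A' (List.mem_cons_of_mem _ hA')
        rw [hsd]
        refine ⟨er_sub h1, ?_⟩
        have := le_two hxy w A'
        omega
      · exact small_quot _ _ _ hS2
      · intro B hB hB0 hB1
        have hB2 := pair_zero hx' hy' h hM0 B hB hB0
        obtain ⟨A, hA, hA1⟩ := hm B (hB.trans ((subset_insert _ _).trans (subset_insert _ _)))
          hB2 hB1
        obtain ⟨z, hz⟩ := hA1
        rw [mem_inter] at hz
        have hzx : z ≠ x := fun e => hxU' (e ▸ hB hz.1)
        have hzy : z ≠ y := fun e => hy' (e ▸ hB hz.1)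
        rcases List.mem_cons.1 hA with rfl | hA
        · exfalso
          have := hz.2
          rw [mem_insert, mem_singleton] at this
          rcases this with e | e
          · exact hzx e
          · exact hzy e
        · refine ⟨A \ {x, y}, List.mem_map.2 ⟨A, hA, rfl⟩, ?_⟩
          refine ⟨z, mem_inter.2 ⟨hz.1, mem_sdiff.2 ⟨hz.2, ?_⟩⟩⟩
          rw [mem_insert, mem_singleton]
          tauto

theorem small_range (A : ℕ → Finset α) (n : ℕ) : ∀ k,
    (∀ i < k + n, (A i \ (range i).biUnion A).card ≤ 2) →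
    Small ((range k).biUnion A) ((List.range' k n).map A) := by
  induction n with
  | zero =>
    intro k _
    exact trivial
  | succ n ih =>
    intro k hk
    rw [List.range'_succ, List.map_cons]
    refine ⟨hk k (by omega), ?_⟩
    have := ih (k + 1) (fun i hi => hk i (by omega))
    rw [range_add_one, biUnion_insert, union_comm] at this
    exact this

/-- Poonen's conjecture for families with small steps. -/
theorem result {α : Type*} [DecidableEq α] (F : Finset (Finset α)) (hne : F.Nonempty)
    (hF : ∀ A ∈ F, ∀ B ∈ F, A ∪ B ∈ F)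
    (hsep : ∀ x ∈ F.sup id, ∀ y ∈ F.sup id, x ≠ y →
      ∃ A ∈ F, (x ∈ A ∧ y ∉ A) ∨ (y ∈ A ∧ x ∉ A))
    (r : ℕ) (A : ℕ → Finset α) (hA : ∀ i < r, A i ∈ F)
    (hsmall : ∀ i < r, (A i \ (range i).biUnion A).card ≤ 2)
    (hmeet : ∀ B ∈ F, B ≠ ∅ → ∃ i < r, (B ∩ A i).Nonempty) :
    F = (F.sup id).powerset ∨ ∃ x ∈ F.sup id, F.card < 2 * (F.filter (fun B => x ∈ B)).card := by
  by_cases hex : ∃ x ∈ F.sup id, F.card < 2 * (F.filter (fun B => x ∈ B)).card
  · exact Or.inr hex
  left
  push Not at hex
  have hsub : ∀ B ∈ F, B ⊆ F.sup id := fun B hB => le_sup (f := id) hB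
  set w : Finset α → ℕ := fun B => if B ∈ F then 1 else 0 with hw
  have hw0 : ∀ B, w B ≠ 0 ↔ B ∈ F := by
    intro B
    simp [hw]
  have hw1 : ∀ B ∈ F, w B = 1 := by
    intro B hB
    simp [hw, hB]
  have ht : Tight (F.sup id) w := by
    refine ⟨?_, ?_, ?_, ?_, ?_⟩
    · intro B _ C _ hC
      rw [hw0] at hC
      by_cases hB : B ∈ F
      · rw [hw1 B hB, hw1 _ (hF B hB C hC)]
      · have : w B = 0 := by
          by_contra hcon
          exact hB ((hw0 B).1 hcon)
        rw [this]
        exact Nat.zero_le _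
    · obtain ⟨B, hB⟩ := hne
      exact ⟨B, hsub B hB, (hw0 B).2 hB⟩
    · intro x hx
      have h1 := hex x hx
      have h2 : ∑ B ∈ (F.sup id).powerset, chi x B * (w B : ℤ)
          = ∑ B ∈ F, chi x B := by
        have hFs : F ⊆ (F.sup id).powerset := fun B hB => mem_powerset.2 (hsub B hB)
        rw [← sum_subset hFs]
        · apply sum_congr rfl
          intro B hB
          rw [hw1 B hB]
          simp
        · intro B _ hB
          have : w B = 0 := by
            by_contra hcon
            exact hB ((hw0 B).1 hcon)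
          rw [this]
          simp
      have h3 : ∀ B ∈ F, chi x B = 2 * (if x ∈ B then 1 else 0) - 1 := by
        intro B _
        unfold chi
        split_ifs <;> norm_num
      rw [h2, sum_congr rfl h3, sum_sub_distrib, ← mul_sum, sum_boole]
      simp only [sum_const, nsmul_eq_mul, mul_one]
      have : (F.filter (fun B => x ∈ B)).card * 2 ≤ F.card := by omega
      have h4 : ((F.filter (fun B => x ∈ B)).card : ℤ) * 2 ≤ (F.card : ℤ) := by
        exact_mod_cast this
      omega
    · intro x hx y hy hxy
      obtain ⟨B, hB, h1⟩ := hsep x hx y hy hxy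
      exact ⟨B, hsub B hB, (hw0 B).2 hB, h1⟩
    · intro x hx
      obtain ⟨B, hB, h1⟩ := mem_sup.1 hx
      exact ⟨B, hsub B hB, (hw0 B).2 hB, h1⟩
  have hsm : Small ∅ ((List.range' 0 r).map A) := by
    have := small_range A r 0 (fun i hi => hsmall i (by omega))
    simpa using this
  have hmain := main ((List.range' 0 r).map A) (F.sup id) w ht (by
    intro B hB
    obtain ⟨i, hi, rfl⟩ := List.mem_map.1 hB
    rw [List.mem_range'_1] at hi
    have := hA i (by omega)
    exact ⟨hsub _ this, (hw0 _).2 this⟩) hsm (by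
    intro B _ hB0 hB1
    obtain ⟨i, hi, h1⟩ := hmeet B ((hw0 B).1 hB0) hB1
    refine ⟨A i, List.mem_map.2 ⟨i, ?_, rfl⟩, h1⟩
    rw [List.mem_range'_1]
    omega)
  apply Subset.antisymm
  · intro B hB
    exact mem_powerset.2 (hsub B hB)
  · intro B hB
    have h1 := hmain B (mem_powerset.1 hB)
    obtain ⟨C, hC⟩ := hne
    have h2 := hmain C (hsub C hC)
    rw [← hw0, h1, ← h2, hw0]
    exact hC

end Pool.Agent.UCSmallSteps
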